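import Mathlib
import Pool.Agent.Y423.LH.Growth
import Pool.Agent.Results.MP_469b0e_pr.BoundedDegree

set_option autoImplicit false

/-!
# MP_469b0e_pr, Q1: a transient graph of bounded degree all of whose non-constant harmonic functions
grow almost exponentially

There is a connected graph with all degrees at most `8` on which simple random walk is transient
and on which every non-constant harmonic function `f` satisfies
`max {|f x| : d(o, x) ≤ n} ≥ exp (n / (100 log n))` for every vertex `o` and all large `n`. So all
harmonic functions of growth `exp (o (n / log n))`, even along a sequence of balls, are constant, in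
particular all Lipschitz ones.
-/

namespace Pool.Agent.Results.MP_469b0e_pr.GrowthOfHarmonic

open SimpleGraph Finset Pool.H102.LH

/-- **Q1 (Bader), answered in the negative, with almost exponential growth.** There is a connected
graph with all degrees at most 8 on which simple random walk is transient, every non-constant
harmonic function has absolute value at least `exp (n / (100 log n))` somewhere in every ball of
large radius `n`, and every Lipschitz harmonic function is constant. -/
theorem result : ∃ (V : Type) (G : SimpleGraph V) (_ : G.LocallyFinite),
    G.Connected ∧ (∀ v, G.degree v ≤ 8) ∧ IsTransient G ∧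
      (∀ f : V → ℝ, IsHarmonic G f → (∃ x y, f x ≠ f y) → ∀ o : V,
        ∃ n₀ : ℕ, ∀ n : ℕ, n₀ ≤ n →
          ∃ x, G.dist o x ≤ n ∧ Real.exp ((n : ℝ) / (100 * Real.log n)) ≤ |f x|) ∧
      ∀ f : V → ℝ, IsHarmonic G f → IsLipschitz G f → ∀ x y, f x = f y := by
  refine ⟨LV, LG, inferInstance, connected, degree_le,
    Pool.Agent.Results.MP_469b0e_pr.BoundedDegree.transient, fun f hf hne o => ?_,
    fun f hf hL x y => ?_⟩
  · exact Pool.Agent.Y423.LH.main f
      (fun v => (lap_zero_iff LG f v (degree_pos' v)).2 (hf v)) hne o
  · obtain ⟨C, hC⟩ := hL
    refine Pool.Agent.Results.MP_469b0e_pr.BoundedDegree.const_of_lipschitz f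
      (fun v => (lap_zero_iff LG f v (degree_pos' v)).2 (hf v)) C (fun v w hw => ?_) x y
    have hadj : LG.Adj w v := by
      rw [SimpleGraph.adj_comm]; exact Or.inl (mem_chF.1 hw)
    have h1 := hC w v
    rw [SimpleGraph.dist_eq_one_iff_adj.2 hadj] at h1
    simpa using h1

end Pool.Agent.Results.MP_469b0e_pr.GrowthOfHarmonic
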